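import Pool.Agent.MP_4f1eb4_an.Asplund

set_option autoImplicit false

namespace Pool.Agent.Results.MP_4f1eb4_an.MEmbedded

open Pool.Agent.MP_4f1eb4_an

/-- If the compact operators on a Banach space `X` with `n(X) > 0` form an M-ideal in the space of
bounded operators normed by the numerical radius, then `X` is Asplund, and the canonical image of
`X` in `X^{**}` is an M-ideal. -/
theorem result {𝕜 X : Type*} [RCLike 𝕜] [NormedAddCommGroup X] [NormedSpace 𝕜 X]
    [CompleteSpace X] [Fact (0 < numIndex 𝕜 X)] (h : IsMIdeal 𝕜 (Kv 𝕜 X)) :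
    IsAsplund 𝕜 X ∧
      IsMIdeal 𝕜 (Y := StrongDual 𝕜 (StrongDual 𝕜 X))
        (LinearMap.range (NormedSpace.inclusionInDoubleDual 𝕜 X).toLinearMap) := by
  obtain ⟨-, P, h1, h2, h3⟩ := h
  have hP : Proj P := ⟨h1, h2, h3⟩
  exact ⟨hP.asplund, hP.mEmbedded⟩

end Pool.Agent.Results.MP_4f1eb4_an.MEmbedded
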